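import Pool.Agent.Helper90.EN.Read

set_option autoImplicit false

/-! # ENCODING BY TM: module CLB -/

namespace Pool.Agent.Helper82.EN

/-- maximum of a path on a nonempty interval of times -/
theorem clb_max (p : ℕ → ℤ) (a b : ℕ) (h : a < b) :
    ∃ r, a ≤ r ∧ r < b ∧ ∀ t, a ≤ t → t < b → p t ≤ p r := by
  have hne : (Finset.Ico a b).Nonempty := ⟨a, Finset.mem_Ico.2 ⟨le_rfl, h⟩⟩
  obtain ⟨r, hr, hm⟩ := Finset.exists_max_image (Finset.Ico a b) p hne
  rw [Finset.mem_Ico] at hr
  exact ⟨r, hr.1, hr.2, fun t h1 h2 => hm t (Finset.mem_Ico.2 ⟨h1, h2⟩)⟩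

theorem clb_mono (S : ℕ → ℕ) (e : ℕ) (he : 1 ≤ e) (h : ∀ k, 1 ≤ k → S k + e ≤ S (k + 1)) (a : ℕ)
    (ha : 1 ≤ a) (m : ℕ) : S a + m ≤ S (a + m) := by
  induction m with
  | zero => simp
  | succ m ih =>
    have := h (a + m) (by omega)
    have e1 : a + (m + 1) = a + m + 1 := by omega
    rw [e1]
    omega

theorem st_CLB (hREAD : ST_READ) (hBLK : ST_BLK) : ST_CLB := by
  intro Q P K Δ n k M c hok hn hrun hk hkN hgood hS hcon
  obtain ⟨hS0, hS1, hSk, hlen, hsw, hseed⟩ := hBLK P K Δ n hok hn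
  have hbet : P.bet = P.D + 2 * P.kap + 2 := rfl
  have hlam := hok.hlam
  have hDpos : 1 ≤ P.D := by
    have h1 := hok.hd
    have h2 := hok.hdD
    omega
  -- the first stage of the block `k`
  obtain ⟨k', rfl⟩ : ∃ k', k = k' + 1 := ⟨k - 1, by omega⟩
  have hSdef : P.S n (k' + 1) = n + P.tau (P.nb * k') := by
    simp [Pa.S]
  have hnb : P.nb = 3 * (4 * P.D + 3) := rfl
  have hnbpos : 0 < P.nb := by omega
  have hiN : P.nb * k' < P.Nst := by
    unfold Pa.Nst
    exact Nat.mul_lt_mul_of_pos_left (by omega) hnbpos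
  have hl := hlen (P.nb * k')
  have hell : 1 ≤ P.ell 4 := by omega
  have hmono := clb_mono (P.S n) (P.ell 4) hell (fun j hj => (hSk j hj).1)
  have h1 := hmono (k' + 1 - 13) (by omega) 13
  have e1 : k' + 1 - 13 + 13 = k' + 1 := by omega
  rw [e1] at h1
  have h2 := (hSk (k' + 1) (by omega)).1
  have h3 := hmono (k' + 1 + 1) (by omega) 2
  have e2 : k' + 1 + 1 + 2 = k' + 1 + 3 := by omega
  rw [e2] at h3
  have hu := read_step M c hrun.step
  -- maximum before the block
  obtain ⟨r, hr1, hr2, hr3⟩ := clb_max (fun t => (c t).p) (P.S n (k' + 1 - 13))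
    (P.S n (k' + 1)) (by omega)
  have hback := read_back (fun t => (c t).p) P.kap 1 _ _ hS r (P.S n (k' + 1)) hr1 (by omega)
    (by omega)
  simp only [one_mul] at hback
  -- end of the stage
  have hend := hS (P.S n (k' + 1)) (P.S n (k' + 1) + P.len (P.nb * k') - 1) (by omega) (by omega)
    (by omega)
  simp only [one_mul] at hend
  have hlast : (c r).p + 1 + P.D + P.kap ≤
      (c (P.S n (k' + 1) + P.len (P.nb * k') - 1)).p := by
    have hc : ((P.S n (k' + 1) + P.len (P.nb * k') - 1 : ℕ) : ℤ) =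
        (P.S n (k' + 1) : ℤ) + P.len (P.nb * k') - 1 := by omega
    rw [hc] at hend
    omega
  have hper : PerOut P M c (P.seed (P.nb * k')) (P.S n (k' + 1))
      (P.S n (k' + 1) + P.len (P.nb * k')) := by
    intro t ht1 ht2 hD
    have := hrun.outp (P.nb * k') hiN (t - P.S n (k' + 1)) (by omega)
    rw [← hSdef] at this
    have e3 : P.S n (k' + 1) + (t - P.S n (k' + 1)) = t := by omega
    rw [e3] at this
    rw [this]
    unfold Pa.letter
    rw [dif_pos hD]
  obtain ⟨c', hc1, hc2, hc3, hc4⟩ := hREAD Q P M c (P.S n (k' + 1 - 13)) (P.S n (k' + 1))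
    (P.S n (k' + 1) + P.len (P.nb * k')) (P.S n (k' + 1 + 3)) ((c r).p + 1)
    (P.seed (P.nb * k')) hrun.step hDpos (by omega) (by omega) hS hper
    (fun t ht1 ht2 => by
      have := hr3 t ht1 ht2
      omega)
    ⟨P.S n (k' + 1) + P.len (P.nb * k') - 1, by omega, by omega, hlast⟩
  have hblk : P.Blk M (P.seed (P.nb * k')) := by
    left
    refine ⟨c', hc2, hc3, fun x => ?_⟩
    have hx := x.2
    rw [hc1, hc4 x (by omega) (by omega)]
    apply hcon
    refine ⟨fun t ht1 ht2 => ?_, ?_⟩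
    · have := hr3 t ht1 ht2
      simp only [one_mul]
      omega
    · obtain ⟨t, ht1, ht2, ht3, ht4⟩ := read_first (fun t => (c t).p) hu (P.S n (k' + 1 - 13))
        (P.S n (k' + 1) + P.len (P.nb * k') - 1) ((c r).p + 1 + x)
        (by
          have := hr3 (P.S n (k' + 1 - 13)) le_rfl (by omega)
          omega) (by omega) (by omega)
      refine ⟨t, ?_, by omega, ht3⟩
      by_contra hc
      have := hr3 t (by omega) (by omega)
      omega
  have hg := (hgood (k' + 1) (by omega) (by omega)).2.2.1.g6 0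
  apply hg
  have e4 := hseed (P.nb * k')
  have e5 : P.nb * k' / P.nb = k' := Nat.mul_div_cancel_left k' hnbpos
  have e6 : P.nb * k' % 3 = 0 := by
    rw [hnb]
    have : 3 * (4 * P.D + 3) * k' = 3 * ((4 * P.D + 3) * k') := by ring
    rw [this]
    exact Nat.mul_mod_right 3 _
  have e7 : P.seed (P.nb * k') = P.sw (k' + 1) 0 := by
    rw [e4, e5]
    congr 1
    exact Fin.ext e6
  rw [← e7]
  exact hblk

end Pool.Agent.Helper82.EN
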