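import Pool.Agent.Helper82.EN.Basic

set_option autoImplicit false

/-! # ENCODING BY TM: module READ -/

namespace Pool.Agent.Helper82.EN

/-- the first time from `t₀` on at which a path with unit steps reaches the level `u` -/
theorem read_first (p : ℕ → ℤ) (hp : ∀ t, |p (t + 1) - p t| ≤ 1) (t₀ t₁ : ℕ) (u : ℤ)
    (h0 : p t₀ < u) (h01 : t₀ ≤ t₁) (h1 : u ≤ p t₁) :
    ∃ t, t₀ < t ∧ t ≤ t₁ ∧ p t = u ∧ ∀ r, t₀ ≤ r → r < t → p r < u := by
  classical
  have hex : ∃ t, t₀ ≤ t ∧ u ≤ p t := ⟨t₁, h01, h1⟩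
  have hs := Nat.find_spec hex
  have hm : ∀ r, r < Nat.find hex → ¬ (t₀ ≤ r ∧ u ≤ p r) := fun r hr => Nat.find_min hex hr
  have hle : Nat.find hex ≤ t₁ := Nat.find_min' hex ⟨h01, h1⟩
  generalize Nat.find hex = t at hs hm hle
  have hlt : t₀ < t := by
    rcases hs.1.lt_or_eq with h | h
    · exact h
    · rw [← h] at hs
      exact absurd hs.2 (not_le.2 h0)
  refine ⟨t, hlt, hle, ?_, fun r hr1 hr2 => ?_⟩
  · have h2 := hm (t - 1) (by omega)
    have h3 : p (t - 1) < u := by
      by_contra hc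
      exact h2 ⟨by omega, not_lt.1 hc⟩
    have h4 := hp (t - 1)
    have e : t - 1 + 1 = t := by omega
    rw [e] at h4
    have h5 := (abs_le.1 h4).2
    have h6 := hs.2
    omega
  · by_contra hc
    exact hm r hr2 ⟨hr1, not_lt.1 hc⟩

/-- a path with unit steps moves at most `t' - t` -/
theorem read_abs (p : ℕ → ℤ) (hp : ∀ t, |p (t + 1) - p t| ≤ 1) (s t : ℕ) (h : s ≤ t) :
    |p t - p s| ≤ (t : ℤ) - s := by
  induction t, h using Nat.le_induction with
  | base => simp
  | succ t h ih =>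
    have h1 := hp t
    have h2 : p (t + 1) - p s = (p (t + 1) - p t) + (p t - p s) := by ring
    rw [h2]
    push_cast
    calc _ ≤ |p (t + 1) - p t| + |p t - p s| := abs_add_le _ _
      _ ≤ _ := by linarith

/-- steady motion: the path does not go back by more than `κ` -/
theorem read_back (p : ℕ → ℤ) (κ : ℕ) (s : ℤ) (a b : ℕ) (h : Stead p κ s a b) (t t' : ℕ)
    (h1 : a ≤ t) (h2 : t ≤ t') (h3 : t' < b) : s * p t ≤ s * p t' + κ := by
  have h4 := h t t' h1 h2 h3
  have h5 : (0 : ℤ) ≤ (t' : ℤ) - t := by omega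
  have h6 : s * (p t' - p t) = s * p t' - s * p t := by ring
  rw [h6] at h4
  omega

theorem read_step {Q : Type} (M : Mc Q) (c : ℕ → Cf Q) (h : ∀ t, c (t + 1) = M.step (c t))
    (t : ℕ) : |(c (t + 1)).p - (c t).p| ≤ 1 := by
  rw [h]
  exact abs_step M (c t)

/-- cells which are not visited in `[s, t)` keep their content -/
theorem read_T {Q : Type} (M : Mc Q) (c : ℕ → Cf Q) (h : ∀ t, c (t + 1) = M.step (c t))
    (s t : ℕ) (hst : s ≤ t) (z : ℤ) (hz : ∀ r, s ≤ r → r < t → (c r).p ≠ z) :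
    (c t).T z = (c s).T z := by
  have e : c t = M.run (c s) (t - s) := by
    rw [← run_of_step M h]
    congr 1
    omega
  rw [e]
  apply run_T_eq
  intro r hr
  rw [← run_of_step M h]
  exact hz _ (by omega) (by omega)

theorem st_READ : ST_READ := by
  intro Q P M c t₀ a b t₃ u w hst hD ht0a hbt3 hS hPer hlow hex
  obtain ⟨t1, ha1, hb1, hp1⟩ := hex
  have hu := read_step M c hst
  obtain ⟨ti, h1, h2, h3, h4⟩ := read_first (fun t => (c t).p) hu t₀ t1 u
    (hlow t₀ le_rfl ht0a) (by omega) (by omega)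
  have h3 : (c ti).p = u := h3
  have hai : a ≤ ti := by
    by_contra hc
    have := hlow ti (by omega) (by omega)
    omega
  have habs := read_abs (fun t => (c t).p) hu ti t1 h2
  simp only [h3] at habs
  have habs2 := (abs_le.1 habs).2
  have hrun : ∀ t, M.run (c ti) t = c (ti + t) := fun t => (run_of_step M hst ti t).symm
  refine ⟨c ti, h3, ?_, ⟨ti - a, ?_⟩, ?_⟩
  · intro t ht
    rw [hrun, h3]
    have h5 := read_back (fun t => (c t).p) P.kap 1 t₀ t₃ hS ti (ti + t) (by omega) (by omega)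
      (by omega)
    simp only [h3] at h5
    have h6 := (abs_le.1 (read_abs (fun t => (c t).p) hu ti (ti + t) (by omega))).2
    simp only [h3] at h6
    push_cast at h6
    constructor <;> omega
  · intro x
    have hx := x.2
    beta_reduce
    rw [hrun, hPer (ti + x) (by omega) (by omega) hD]
    congr 3
    have e : ti + (x : ℕ) - a = (x : ℕ) + (ti - a) := by omega
    rw [e]
  · intro x hx0 hxD
    apply read_T M c hst t₀ ti (by omega)
    intro r hr1 hr2
    have := h4 r hr1 hr2
    omega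

end Pool.Agent.Helper82.EN
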