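import Pool.Agent.Helper90.EN.Read

set_option autoImplicit false

/-! # ENCODING BY TM: module SUPER -/

namespace Pool.Agent.Helper82.EN

theorem super_stead {p : ℕ → ℤ} {κ : ℕ} {s : ℤ} {a b : ℕ} (h : Stead p κ s a b) :
    Stead (fun t => -p t) κ (-s) a b := by
  intro t t' h1 h2 h3
  have h4 := h t t' h1 h2 h3
  have h5 : -s * (-p t' - -p t) = s * (p t' - p t) := by ring
  simp only [h5]
  exact h4

theorem super_reg {p : ℕ → ℤ} {S : ℕ → ℕ} {k : ℕ} {z : ℤ} (h : Reg p S k (-1) z) :
    Reg (fun t => -p t) S k 1 (-z) := by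
  obtain ⟨h1, t, h2, h3, h4⟩ := h
  refine ⟨fun t ht1 ht2 => ?_, t, h2, h3, ?_⟩
  · have := h1 t ht1 ht2
    simp only [one_mul]
    linarith
  · simp only [h4]

theorem super_mono (S : ℕ → ℕ) (L : ℕ) (h : ∀ j, 1 ≤ j → S j + L ≤ S (j + 1) ∧
    S (j + 1) ≤ S j + 2 * L) (a m : ℕ) (ha : 1 ≤ a) : S a + m * L ≤ S (a + m) := by
  induction m with
  | zero => simp
  | succ m ih =>
    have := (h (a + m) (by omega)).1
    have e1 : a + (m + 1) = a + m + 1 := by omega
    have e2 : (m + 1) * L = m * L + L := by ring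
    rw [e1, e2]
    omega

theorem st_SUPER (hVIS : ST_VIS) (hUPO : ST_UPO) (hCNT : ST_CNT) : ST_SUPER := by
  classical
  intro p S good N L κ hp hp0 hS0 hS1 hSj hL hg0 hgN hlag hN hcard hst
  have hmono : StrictMonoOn S (Set.Ici 1) := by
    intro a ha b hb hab
    rw [Set.mem_Ici] at ha hb
    have h1 := super_mono S L hSj a (b - a) ha
    have e : a + (b - a) = b := by omega
    rw [e] at h1
    have h2 : L ≤ (b - a) * L := Nat.le_mul_of_pos_left L (by omega)
    omega
  obtain ⟨k, hk1, hk2, hk3, hk4, hk5⟩ := hCNT p S good N hmono (by omega) hgN hN hlag (by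
    convert hcard using 4)
  refine ⟨k, hk1, hk2, hk3, hk4, ?_⟩
  obtain ⟨s, hs, hSt⟩ := hst (k - 13) (k + 2) (by omega) (fun j h1 h2 => hk4 j (by omega) h2)
  have e3 : k + 2 + 1 = k + 3 := rfl
  rw [e3] at hSt
  refine ⟨s, hs, hSt, ?_⟩
  rcases hs with rfl | rfl
  · rcases hVIS p S good L κ k hp hS0 hS1 hSj hL hg0 hst hk2 hk4 hSt
      (fun l hl t h1 h2 => (hk5 l hl t h1 h2).1) with h | ⟨h1, h2⟩
    · exact Or.inl h
    · right
      left
      exact ⟨rfl, hUPO p S good L κ k hp hp0 hS0 hS1 hSj hL hg0 hlag hk2 hk4 hSt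
        (fun l hl t h1 h2 => (hk5 l hl t h1 h2).2.2) h1 h2⟩
  · have hq : ∀ t, |(fun t => -p t) (t + 1) - (fun t => -p t) t| ≤ 1 := by
      intro t
      have := hp t
      rw [abs_le] at this ⊢
      constructor <;> simp only <;> omega
    have hSt' := super_stead hSt
    rw [neg_neg] at hSt'
    have hst' : ∀ a b, a ≤ b → (∀ j, a ≤ j → j ≤ b → good j) →
        ∃ s : ℤ, (s = 1 ∨ s = -1) ∧ Stead (fun t => -p t) κ s (S a) (S (b + 1)) := by
      intro a b hab hgd
      obtain ⟨s, hs, h⟩ := hst a b hab hgd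
      refine ⟨-s, ?_, super_stead h⟩
      rcases hs with rfl | rfl
      · right; rfl
      · left; norm_num
    rcases hVIS (fun t => -p t) S good L κ k hq hS0 hS1 hSj hL hg0 hst' hk2 hk4 hSt'
      (fun l hl t h1 h2 => (hk5 l hl t h1 h2).2.1) with h | ⟨h1, h2⟩
    · left
      obtain ⟨μ, ν, h1, h2, h3, h4, h5⟩ := h
      refine ⟨μ, ν, h1, h2, h3, ?_, fun z hz => ?_⟩
      · have h6 := super_stead h4
        simp only [neg_neg] at h6
        rw [neg_neg]
        exact h6
      · obtain ⟨u, hu1, hu2, hu3, hu4⟩ := h5 (-z) (super_reg hz)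
        refine ⟨u, hu1, hu2, neg_inj.1 hu3, fun t ht1 ht2 hc => ?_⟩
        exact hu4 t ht1 ht2 (by simp only [hc])
    · right
      right
      refine ⟨rfl, fun z hz => ⟨?_, fun t ht hc => ?_⟩⟩
      · have hzr := super_reg hz
        have hpos := super_mono S L hSj 1 (k - 14) le_rfl
        have e4 : 1 + (k - 14) = k - 13 := by omega
        rw [e4] at hpos
        have hpos2 : 0 < S (k - 13) := by
          have : 1 * L ≤ (k - 14) * L := Nat.mul_le_mul_right L (by omega)
          omega
        have h3 : ¬ ((fun t => -p t) (S (k - 13)) + (κ : ℤ) < 0) := by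
          intro hc
          exact h2 0 hc 0 hpos2 (by simp only [hp0, neg_zero])
        have h13 := super_mono S L hSj (k - 13) 13 (by omega)
        have e5 : k - 13 + 13 = k := by omega
        rw [e5] at h13
        have h3k := super_mono S L hSj k 3 (by omega)
        have h4 := hSt' (S (k - 13)) (S k - 1) le_rfl (by omega) (by omega)
        have h5 := hzr.1 (S k - 1) (by omega) (by omega)
        simp only [one_mul] at h4 h5
        simp only [not_lt] at h3
        have e6 : ((S k - 1 : ℕ) : ℤ) = (S k : ℤ) - 1 := by omega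
        rw [e6] at h4
        omega
      · exact h1 (-z) (super_reg hz) t ht (by simp only [hc])

end Pool.Agent.Helper82.EN
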